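import Pool.Agent.Q56.NS.Main

/-!
# A positive proportion of Tate classes on the powers forces the semisimplicity of the Frobenius

Let `X` be a smooth projective variety over an algebraic closure of a finite field, with total
Betti number at most `b`. For `n ≥ 0` let

* `z n` be the order of the pole at the central point `(n + 1) * dim X` of the zeta function of
  `sq X n = X ^ (2 n + 2)` over all sufficiently large finite fields,
* `r n` be the rank of the cycles of codimension `(n + 1) * dim X` on `sq X n` modulo numerical
  equivalence,
* `t n` be the dimension of the space of the Tate classes of this codimension on `sq X n`.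

Then `0 < r n ≤ t n ≤ z n`, and the conjecture of Tate on the poles predicts `r n = z n`. Put

  `bound b n = (b / (2 n + 2)) ^ (1 / 2) + (n + 2) ^ (b ^ 2) * (1 - 1 / b ^ 2) ^ (2 n + 2)`,

which tends to zero. Then either the Frobenius endomorphism of `X` acts semisimply on the whole
cohomology of `X`, and `t n = z n` for all `n`, or `t n ≤ bound b n * z n` for all `n`: if the
Frobenius endomorphism is not semisimple, then the poles of the zeta functions of the powers of `X`
are explained only to a negligible part by Tate classes, and hence by algebraic cycles.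

So one inequality `bound b n * z n < r n`, for one `n`, implies that the Frobenius endomorphism of
`X` is semisimple; the conjecture of Tate on the poles for this one power is much more. And if the
ratios `z n / r n` do not tend to infinity, then the Frobenius endomorphism is semisimple, and the
ratios are bounded by an integer `d`, to which they tend.

The hypothesis `hRH` is a theorem for smooth projective varieties (Deligne, Katz-Messing). No
polarisation and none of the standard conjectures is used.
-/

open CategoryTheory AlgebraicGeometry

universe u v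

namespace Pool.Agent.Results.MP_557161_ag.CyclesForceSemisimplicity

open Pool.Agent.H914 Pool.Agent.H914.VarClass Pool.Agent.H914.VarClass.Obj
  Pool.Agent.H914.WeilCohomology Pool.Agent.W534 Pool.Agent.Y163 Pool.Agent.Q56.NS

/-- **A positive proportion of Tate classes forces the semisimplicity of the Frobenius
endomorphism.** -/
theorem result {k : Type u} [Field k] {𝒱 : VarClass k} {ops : CycleOps 𝒱}
    (W : WeilCohomology.{u, v} ops) [IsAlgClosed W.K] (σ : W.K →+* ℂ) {p : ℕ} [hp : Fact p.Prime]
    (Φ : FrobSystem W p) (hRH : ∀ Z : 𝒱.Obj, RiemannHyp Φ σ Z) (b : ℕ) (X : 𝒱.Obj)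
    (D : X.Cycles) (hD : X.IsCyc 1 D) (hbig : Big ops X D)
    (hb : Module.finrank W.K (W.H X) ≤ b) :
    (∃ z r t : ℕ → ℕ,
      (∀ n, PoleOrderIs Φ σ (sq X n) ((n + 1) * X.dim) (z n)) ∧
      (∀ n, r n = numRank ops (sq X n) ((n + 1) * X.dim)) ∧
      (∀ n, t n = Module.finrank W.K (tateSpace Φ (sq X n) ((n + 1) * X.dim))) ∧
      (∀ n, 0 < r n ∧ r n ≤ t n ∧ t n ≤ z n) ∧
      ((Module.End.IsSemisimple (W.map (Φ.Fr X)).toLinearMap ∧ ∀ n, t n = z n) ∨
        ∀ n, (t n : ℝ) ≤ bound b n * z n) ∧
      ((Module.End.IsSemisimple (W.map (Φ.Fr X)).toLinearMap ∧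
          ∃ d : ℕ, (∀ n, z n ≤ d * r n) ∧
            Filter.Tendsto (fun n => (z n : ℝ) / r n) Filter.atTop (nhds d)) ∨
        Filter.Tendsto (fun n => (z n : ℝ) / r n) Filter.atTop Filter.atTop)) ∧
    Filter.Tendsto (bound b) Filter.atTop (nhds 0) :=
  main hp.out.one_lt Φ σ hRH hD hbig hb

end Pool.Agent.Results.MP_557161_ag.CyclesForceSemisimplicity
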