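import Pool.Agent.Q59.TP.Fin

/-!
# The pole order and the rank of the cycles for Fermat varieties over finite fields

Let `X : x_0 ^ m + ... + x_(n+1) ^ m = 0` be the Fermat variety of even dimension `n = 2 * k - 2` over
a finite field with `q` elements of characteristic `p`, `p` not dividing `m`, and let `f` be the order
of `p` modulo `m`, that is, the degree of the field generated by the `m`-th roots of unity over the
prime field. Apart from the class of the linear sections, the cohomology of degree `n` is the sum of
the lines `V(s)` of the tuples `s` of `2 * k` nonzero residues modulo `m` with sum zero, on which the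
Frobenius acts by Jacobi sums. By the theorem of Stickelberger a power of the Frobenius acts on `V(s)`
as the expected power if and only if `s` is a Tate character. Hence the order of the pole of
`zeta(X, s)` at `s = k - 1` is at most `1 + tateLines p k m`, with equality if the finite field is
large enough (Weil).

The lines of the pairs `{a, -a}`, of the Tate characters with four entries (the Tate conjecture for
Fermat surfaces, a consequence of the theorem of Tate) and of the standard characters (Aoki, Shioda)
are spanned by algebraic cycles, and the family of the characters with algebraic lines is closed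
under union, under removing a pair, and under passing from a multiple `N * m` of the degree to `m`
(Shioda, Katsura). So the lines of the characters which are `AlgebraicLine` are algebraic, and since
the family is closed under `s ↦ -s`, they are linearly independent modulo numerical equivalence.
Therefore the order of the pole at `s = k - 1` minus the rank of the group of cycles modulo numerical
equivalence is at most `openLines p k m`, over every finite field of characteristic `p`.

The theorem: for every dimension `2 * k - 2` and every `f` there is a constant `C` such that for all
primes `p` and all degrees `m` for which `p` has order `f` modulo `m`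

* `openLines p k m ≤ C * (m ^ (k - 1) + h ^ (2 * k - 2))`, where `h` is the largest of the numbers
  `gcd (p ^ e + 1, m)`, `e < f`;
* `m ^ k + h ^ (2 * k - 1) ≤ C * tateLines p k m`;
* hence `openLines p k m ≤ (C / m) ^ (1 / 2) * tateLines p k m`.

The numbers `h` measure how supersingular `X` is; if `f` is odd, then `h ≤ 2`, and there are at most
`C' * m ^ (k - 1)` unknown lines, and at least `(m - 1) ^ k` known ones.

The proof combines the equidistribution of the Galois conjugates of torsion points of a torus of
dimension `2 * k * f` with the parity theorem for Tate characters.
-/

namespace Pool.Agent.Results.MP_557161_ag.FermatFixedOrder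

open Pool.Agent.H916T

/-- The characters obtained, in a multiple `N * m` of the degree, `N` prime to `p`, from the
characters of surfaces and the standard characters. -/
def AlgebraicLine (p m : ℕ) (s : Multiset (ZMod m)) : Prop :=
  ∃ N : ℕ, 0 < N ∧ p.Coprime N ∧
    Generated (N * m)
      (fun t => SurfaceTate p (N * m) t ∨ ∃ q : ℕ, q.Prime ∧ q ∣ N * m ∧ Standard q (N * m) t)
      (s.map fun a => ((N * a.val : ℕ) : ZMod (N * m)))

/-- The number of the Tate characters with `2 * k` entries, as tuples. -/
noncomputable def tateLines (p k m : ℕ) : ℕ :=
  Nat.card {s : Fin (2 * k) → ZMod m // IsTate p m ((Finset.univ : Finset (Fin (2 * k))).val.map s)}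

/-- The number of those which are not `AlgebraicLine`. -/
noncomputable def openLines (p k m : ℕ) : ℕ :=
  Nat.card {s : Fin (2 * k) → ZMod m //
    IsTate p m ((Finset.univ : Finset (Fin (2 * k))).val.map s) ∧
      ¬ AlgebraicLine p m ((Finset.univ : Finset (Fin (2 * k))).val.map s)}

/-- The largest of the numbers `gcd (p ^ e + 1, m)`, `e < f`. -/
def maxGcd (f p m : ℕ) : ℕ := (Finset.range f).sup fun e => Nat.gcd (p ^ e + 1) m

/-- **Tate's formula for the poles of the zeta functions of Fermat varieties, up to a proportion
`O(m ^ (-1/2))`.** -/
theorem result (k f : ℕ) (hk : 1 ≤ k) : ∃ C : ℕ, ∀ p m : ℕ, p.Prime → 2 ≤ m → p.Coprime m →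
    orderOf (p : ZMod m) = f →
    openLines p k m ≤ C * (m ^ (k - 1) + maxGcd f p m ^ (2 * k - 2)) ∧
    m ^ k + maxGcd f p m ^ (2 * k - 1) ≤ C * tateLines p k m ∧
    m * openLines p k m ^ 2 ≤ C * tateLines p k m ^ 2 :=
  Pool.Agent.Q59.TP.main k f hk

end Pool.Agent.Results.MP_557161_ag.FermatFixedOrder
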