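import Pool.Agent.Q282.PB.Pair

/-!
# Poles and cycles on the squares of almost all pullbacks of a family of varieties over a finite field

Let `F` be a finite field with `q` elements, `G` a set of polynomials in `x_1, ..., x_s` and `u = (u_i)`, `i` in the finite set
`ι`, over `F` (a family of varieties over the affine space, with fibres `G_u`), and `Z` a set of polynomials in `u`, with `U` the
open set where some element of `Z` is not zero. For a tuple `f` of polynomials in one variable `t` let `V_f` be the variety of the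
`(t, x)` with `x` in the fibre over `f(t)`.
-/

set_option autoImplicit false

namespace Pool.Agent.Results.MP_557161_ag.PolesAndCyclesOnSquares

open Finset Polynomial
open Q282PB (IsFamily MapsTo IsSpectrum prs)

open Classical in
/-- The bounds for the multiset `α` of the Frobenius eigenvalues: (1) for every multiset `η` of nonzero complex numbers (the
Frobenius eigenvalues of some variety `Y`) and every nonzero `γ` there are at most `M * #η` triples `(e, a, a')` in
`η × α × α` with `e a a' = γ`; (2) `α` has at least `#α ^ 2 / M` different elements. -/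
def BoundedPoles (α : Multiset ℂ) (M : ℝ) : Prop :=
  (∀ (η : Multiset ℂ) (γ : ℂ), (∀ e ∈ η, e ≠ 0) → γ ≠ 0 →
    (Multiset.card ((η ×ˢ (α ×ˢ α)).filter fun x => x.1 * (x.2.1 * x.2.2) = γ) : ℝ) ≤ M * Multiset.card η) ∧
  (Multiset.card α : ℝ) ^ 2 ≤ M * α.toFinset.card

lemma prs_eq (α : Multiset ℂ) : prs α = ∑ x ∈ α.toFinset, (α.count x : ℝ) * α.count x := by
  classical
  unfold prs
  rw [Finset.sum_multiset_map_count]
  exact sum_congr rfl fun x _ => by rw [nsmul_eq_mul]

lemma shift_le (α : Multiset ℂ) (h0 : ∀ a ∈ α, a ≠ 0) (δ : ℂ) (hδ : δ ≠ 0) :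
    (α.map fun a => (α.count (δ / a) : ℝ)).sum ≤ prs α := by
  classical
  rw [prs_eq, Finset.sum_multiset_map_count]
  have h1 : ∀ x ∈ α.toFinset, α.count x • (α.count (δ / x) : ℝ) ≤
      1 / 2 * ((α.count x : ℝ) * α.count x) + 1 / 2 * ((α.count (δ / x) : ℝ) * α.count (δ / x)) := by
    intro x _
    rw [nsmul_eq_mul]
    nlinarith [sq_nonneg ((α.count x : ℝ) - α.count (δ / x))]
  refine (sum_le_sum h1).trans ?_
  rw [sum_add_distrib, ← mul_sum, ← mul_sum]
  have h2 : ∑ x ∈ α.toFinset, (α.count (δ / x) : ℝ) * α.count (δ / x) ≤ ∑ x ∈ α.toFinset, (α.count x : ℝ) * α.count x := by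
    have hinj : Set.InjOn (fun x => δ / x) (α.toFinset : Set ℂ) := by
      intro x hx y hy hxy
      have hx0 := h0 x (Multiset.mem_toFinset.1 hx)
      have hy0 := h0 y (Multiset.mem_toFinset.1 hy)
      have hxy' : δ / x = δ / y := hxy
      rw [div_eq_div_iff hx0 hy0] at hxy'
      exact (mul_left_cancel₀ hδ hxy').symm
    rw [← sum_image (f := fun z => (α.count z : ℝ) * α.count z) hinj]
    have h3 : ∑ z ∈ α.toFinset.image (fun x => δ / x), (α.count z : ℝ) * α.count z =
        ∑ z ∈ (α.toFinset.image (fun x => δ / x)).filter (fun z => z ∈ α), (α.count z : ℝ) * α.count z := by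
      rw [sum_filter]
      refine sum_congr rfl fun z _ => ?_
      split_ifs with h
      · rfl
      · rw [Multiset.count_eq_zero_of_notMem h]
        simp
    rw [h3]
    refine sum_le_sum_of_subset_of_nonneg ?_ fun z _ _ => mul_nonneg (Nat.cast_nonneg _) (Nat.cast_nonneg _)
    intro z hz
    rw [mem_filter] at hz
    exact Multiset.mem_toFinset.2 hz.2
  linarith

open Classical in
lemma card_two (α β : Multiset ℂ) (h0 : ∀ a ∈ β, a ≠ 0) (δ : ℂ) :
    (Multiset.card ((β ×ˢ α).filter fun x => x.1 * x.2 = δ) : ℝ) = (β.map fun a => (α.count (δ / a) : ℝ)).sum := by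
  induction β using Multiset.induction_on with
  | empty => simp
  | cons a t ih =>
    have h1 := ih fun a' ha' => h0 a' (Multiset.mem_cons_of_mem ha')
    have h2 := h0 a (Multiset.mem_cons_self a t)
    rw [Multiset.cons_product, Multiset.filter_add, Multiset.card_add, Multiset.map_cons, Multiset.sum_cons, Multiset.filter_map,
      Multiset.card_map]
    have h3 : (Multiset.card (α.filter ((fun x : ℂ × ℂ => x.1 * x.2 = δ) ∘ Prod.mk a))) = α.count (δ / a) := by
      rw [Multiset.count, Multiset.countP_eq_card_filter]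
      congr 1
      refine Multiset.filter_congr fun b _ => ?_
      show a * b = δ ↔ δ / a = b
      rw [div_eq_iff h2, mul_comm b a]
      exact eq_comm
    rw [h3]
    push_cast
    linarith

open Classical in
lemma card_three (α η : Multiset ℂ) (h0 : ∀ a ∈ α, a ≠ 0) (hη : ∀ e ∈ η, e ≠ 0) (γ : ℂ) (hγ : γ ≠ 0) :
    (Multiset.card ((η ×ˢ (α ×ˢ α)).filter fun x => x.1 * (x.2.1 * x.2.2) = γ) : ℝ) ≤ prs α * Multiset.card η := by
  induction η using Multiset.induction_on with
  | empty => simp
  | cons e t ih =>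
    have h1 := ih fun e' he' => hη e' (Multiset.mem_cons_of_mem he')
    have h2 := hη e (Multiset.mem_cons_self e t)
    rw [Multiset.cons_product, Multiset.filter_add, Multiset.card_add, Multiset.card_cons, Multiset.filter_map, Multiset.card_map]
    have h3 : ((α ×ˢ α).filter ((fun x : ℂ × (ℂ × ℂ) => x.1 * (x.2.1 * x.2.2) = γ) ∘ Prod.mk e)) =
        (α ×ˢ α).filter fun x => x.1 * x.2 = γ / e := by
      refine Multiset.filter_congr fun x _ => ?_
      show e * (x.1 * x.2) = γ ↔ x.1 * x.2 = γ / e
      rw [eq_div_iff h2, mul_comm]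
    rw [h3]
    have h4 := card_two α α h0 (γ / e)
    have h5 := shift_le α h0 (γ / e) (div_ne_zero hγ h2)
    push_cast
    linarith

lemma distinct (α : Multiset ℂ) : (Multiset.card α : ℝ) ^ 2 ≤ prs α * α.toFinset.card := by
  classical
  have h1 : (Multiset.card α : ℝ) = ∑ x ∈ α.toFinset, 1 * (α.count x : ℝ) := by
    have := Multiset.toFinset_sum_count_eq α
    rw [← this]
    push_cast
    exact sum_congr rfl fun _ _ => (one_mul _).symm
  rw [h1, prs_eq]
  have h2 := sum_mul_sq_le_sq_mul_sq α.toFinset (fun _ => (1 : ℝ)) (fun x => (α.count x : ℝ))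
  refine h2.trans (le_of_eq ?_)
  simp only [one_pow, sum_const, nsmul_eq_mul, mul_one]
  rw [mul_comm]
  congr 1
  exact sum_congr rfl fun _ _ => sq _

/-- **Main theorem.** Suppose that over `U` the numbers of points of the fibres over a field with `q ^ m` elements differ from
`c(m)` by at most `C q ^ (m w / 2)`, on average by at most `C q ^ (m (w - 1) / 2)`. Then for all `n, K ≥ 1` and all tuples `g`, for
all tuples `t` of polynomials of degree less than `n` but at most a proportion `exp (-K)`: if `f = g + t` maps the line to `U` and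
`V_f` has at most `κ n` eigenvalues `α` of size `q ^ ((w + 1) / 2)` and at most `κ n` others, then the bounds hold for `α` with
`M = 750 (κ ^ 2 + C ^ 2) K n`. -/
theorem result {F : Type} [Field F] [Fintype F] {s : ℕ} {ι : Type} [Fintype ι] (G : Set (MvPolynomial (Fin s ⊕ ι) F))
    (Z : Set (MvPolynomial ι F)) (w : ℕ) (c : ℕ → ℝ) (C κ : ℝ) (hC : 0 < C) (hκ : 0 ≤ κ) (hfam : IsFamily G Z w c C)
    (g : ι → F[X]) (n K : ℕ) (hn : 1 ≤ n) (hK : 1 ≤ K) :
    (Nat.card {t : ι → degreeLT F n // MapsTo Z (fun i => g i + (t i).1) ∧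
      ∃ α : Multiset ℂ, IsSpectrum G w c (fun i => g i + (t i).1) (κ * n) α ∧
        ¬ BoundedPoles α (750 * (κ ^ 2 + C ^ 2) * K * n)} : ℝ) ≤
      Real.exp (-K) * Nat.card (ι → degreeLT F n) := by
  classical
  have h1 := Q282PB.pairs G Z w c C κ hC hκ hfam g n K hn hK
  rw [Nat.card_eq_fintype_card, Nat.card_eq_fintype_card, Fintype.card_subtype]
  refine le_trans (Nat.cast_le.2 (card_le_card ?_)) h1
  intro t ht
  rw [mem_filter] at ht ⊢
  obtain ⟨-, hmap, α, hα, hnot⟩ := ht
  refine ⟨mem_univ _, hmap, α, hα, ?_⟩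
  by_contra hcon
  rw [not_lt] at hcon
  apply hnot
  have h0 : ∀ a ∈ α, a ≠ 0 := by
    intro a ha h
    have h2 := hα.2.1 a ha
    rw [h, norm_zero] at h2
    have h3 : 0 < Real.sqrt (Fintype.card F) := Real.sqrt_pos.2 (by exact_mod_cast Fintype.card_pos)
    have h4 : 0 < Real.sqrt (Fintype.card F) ^ (w + 1) := by positivity
    linarith
  refine ⟨fun η γ hη hγ => (card_three α η h0 hη γ hγ).trans (mul_le_mul_of_nonneg_right hcon (Nat.cast_nonneg _)), ?_⟩
  exact (distinct α).trans (mul_le_mul_of_nonneg_right hcon (Nat.cast_nonneg _))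

end Pool.Agent.Results.MP_557161_ag.PolesAndCyclesOnSquares
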