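import Pool.Agent.Q56.FD.Pole

/-!
# The uniform one-half law for the orders of the poles of the zeta functions of powers

Let `X` be a smooth projective variety of dimension at most `d` over an algebraic closure of a
finite field, with total Betti number at most `b`, and `N = powBound b d = (4 (d + 1) b!) ^ (2 ^ b)`.
Let `z n` be the order of the pole at the central point `(n + 1) * dim X` of the zeta function of
`sq X n = X ^ (2 n + 2)` over all sufficiently large finite fields, and let `r n` be the rank of the
cycles of codimension `(n + 1) * dim X` on it modulo numerical equivalence. Then either the formula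
of Tate `ord_(s = j) ζ = - rank` holds for all powers of `X` at all integers `j`, or

  `(2 - ε n) * r n ≤ z n` for all `n > 0`, where `ε n = 2 N b ^ (2 N + 2) log (n + 2) / n`.

The error term `ε n` tends to zero and depends only on `b` and `d`: not on `X`, on its field of
definition, on the characteristic or on the zeta function. So the conjecture of Tate for all powers
of `X` at all integers follows from one inequality `z n < (2 - ε n) * r n` between two integers, for
one explicit `n`: as soon as noticeably more than one half of the order of one pole of the zeta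
function of one explicit power is explained by algebraic cycles, everything is.

The hypotheses `hRH` and `hP` are theorems for smooth projective varieties (Deligne, Katz-Messing,
Dieudonne-Manin).
-/

open CategoryTheory AlgebraicGeometry

universe u v

namespace Pool.Agent.Results.MP_557161_ag.UniformOneHalfLaw

open Pool.Agent.H914 Pool.Agent.H914.VarClass Pool.Agent.H914.VarClass.Obj
  Pool.Agent.H914.WeilCohomology Pool.Agent.W534 Pool.Agent.Y163 Pool.Agent.Q56.FD

/-- **The uniform one-half law.** (1) The dichotomy, with the explicit error term `errTerm b d n`.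
(2) The error term tends to zero. (3) The formula for the power of `X` with `powBound b d` factors
implies the formula for all powers. -/
theorem result {k : Type u} [Field k] {𝒱 : VarClass k} {ops : CycleOps 𝒱}
    (W : WeilCohomology.{u, v} ops) [IsAlgClosed W.K] (σ : W.K →+* ℂ) {p : ℕ} [Fact p.Prime]
    (Φ : FrobSystem W p) (hRH : ∀ Z : 𝒱.Obj, RiemannHyp Φ σ Z) (b d : ℕ) (X : 𝒱.Obj)
    (D : X.Cycles) (hD : X.IsCyc 1 D) (hbig : Big ops X D)
    (hb : Module.finrank W.K (W.H X) ≤ b) (hd : X.dim ≤ d)
    (hP : ∀ i ≤ 2 * X.dim, ∃ P : Polynomial ℤ, IsFrobPoly p (p ^ Φ.e X) i P ∧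
      P.map (algebraMap ℤ W.K) = charpolyOn (W.map (Φ.Fr X)).toLinearMap (W.gr X i)) :
    (∃ z r : ℕ → ℕ,
      (∀ n, PoleOrderIs Φ σ (sq X n) ((n + 1) * X.dim) (z n)) ∧
      (∀ n, r n = numRank ops (sq X n) ((n + 1) * X.dim)) ∧
      (∀ n, 0 < r n ∧ r n ≤ z n) ∧
      ((∀ n, ∀ j ≤ (pw X n).dim, PoleFormula Φ σ (pw X n) j) ∨
        ∀ n, 0 < n → (2 - errTerm b d n) * r n ≤ z n)) ∧
    Filter.Tendsto (errTerm b d) Filter.atTop (nhds 0) ∧
    ((∀ j ≤ (pw X (powBound b d - 1)).dim, PoleFormula Φ σ (pw X (powBound b d - 1)) j) →
      ∀ n, ∀ j ≤ (pw X n).dim, PoleFormula Φ σ (pw X n) j) :=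
  ⟨uniform_half hRH hD hbig hb hd hP, errTerm_tendsto b d, pole_of_one hRH hb hd hP⟩

end Pool.Agent.Results.MP_557161_ag.UniformOneHalfLaw
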